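import Pool.Agent.W326.DU.Stm

/-! # Project DU: the left family -/

set_option autoImplicit false

namespace Pool.Agent.W85.DU

open Pool.Agent.W326.DU MonoidAlgebra

section
variable {R G : Type} [CommRing R] [Group G]

/-- the anti-automorphism -/
noncomputable def sg : MonoidAlgebra R G →+ MonoidAlgebra R G :=
  (mapDomainAddEquiv R (Equiv.inv G)).toAddMonoidHom

lemma sg_single (g : G) (r : R) : sg (single g r) = single g⁻¹ r :=
  mapDomainAddEquiv_single (Equiv.inv G) r g

lemma sg_mul (x y : MonoidAlgebra R G) : sg (x * y) = sg y * sg x := by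
  induction x using MonoidAlgebra.induction_linear with
  | zero => simp
  | add a b ha hb => rw [add_mul, map_add, ha, hb, map_add, mul_add]
  | single g r =>
    induction y using MonoidAlgebra.induction_linear with
    | zero => simp
    | add a b ha hb => rw [mul_add, map_add, ha, hb, map_add, add_mul]
    | single h r' =>
      rw [single_mul_single, sg_single, sg_single, sg_single, single_mul_single, mul_inv_rev,
        mul_comm r r']

lemma sg_sg (x : MonoidAlgebra R G) : sg (sg x) = x := by
  induction x using MonoidAlgebra.induction_linear with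
  | zero => simp
  | add a b ha hb => rw [map_add, map_add, ha, hb]
  | single g r => rw [sg_single, sg_single, inv_inv]

lemma sg_of (g : G) : sg (MonoidAlgebra.of R G g) = MonoidAlgebra.of R G g⁻¹ := sg_single g 1

lemma sg_one : sg (1 : MonoidAlgebra R G) = 1 := by
  have := sg_of (R := R) (1 : G)
  rwa [inv_one, map_one] at this

lemma sg_om (g : G) : sg (MonoidAlgebra.of R G g - 1) = MonoidAlgebra.of R G g⁻¹ - 1 := by
  rw [map_sub, sg_of, sg_one]

lemma of_inv_mul (g : G) : MonoidAlgebra.of R G g⁻¹ * MonoidAlgebra.of R G g = 1 := by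
  rw [← map_mul, inv_mul_cancel, map_one]

lemma of_mul_inv (g : G) : MonoidAlgebra.of R G g * MonoidAlgebra.of R G g⁻¹ = 1 := by
  rw [← map_mul, mul_inv_cancel, map_one]

variable (s : Fin 10 → G)

lemma sg_L (v : Fin 10) (y : MonoidAlgebra R G) :
    sg (Lf R s v y) = Rf R s v (-(sg y * MonoidAlgebra.of R G (s v)⁻¹)) := by
  show sg ((MonoidAlgebra.of R G (s v) - 1) * y) =
    -(sg y * MonoidAlgebra.of R G (s v)⁻¹) * (MonoidAlgebra.of R G (s v) - 1)
  rw [sg_mul, sg_om, mul_sub, mul_sub, mul_one, mul_one, neg_mul, mul_assoc, of_inv_mul, mul_one]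
  abel

lemma sg_R (v : Fin 10) (y : MonoidAlgebra R G) :
    sg (Rf R s v y) = Lf R s v (-(MonoidAlgebra.of R G (s v)⁻¹ * sg y)) := by
  show sg (y * (MonoidAlgebra.of R G (s v) - 1)) =
    (MonoidAlgebra.of R G (s v) - 1) * -(MonoidAlgebra.of R G (s v)⁻¹ * sg y)
  rw [sg_mul, sg_om, sub_mul, sub_mul, one_mul, one_mul, mul_neg, ← mul_assoc, of_mul_inv, one_mul]
  abel

lemma Im_le {V M : Type} [AddCommGroup M] {F : V → M →+ M} {S : Set V} {K : AddSubgroup M}
    (h : ∀ v ∈ S, ∀ y, F v y ∈ K) : Im F S ≤ K := by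
  unfold Im
  refine iSup₂_le fun v hv => ?_
  rintro _ ⟨y, rfl⟩
  exact h v hv y

lemma mem_Im {V M : Type} [AddCommGroup M] {F : V → M →+ M} {S : Set V} {v : V} (hv : v ∈ S) (y : M) :
    F v y ∈ Im F S := by
  unfold Im
  exact AddSubgroup.mem_iSup_of_mem v (AddSubgroup.mem_iSup_of_mem hv ⟨y, rfl⟩)

lemma L_to_R {S : Set (Fin 10)} {x : MonoidAlgebra R G} (hx : x ∈ Im (Lf R s) S) :
    sg x ∈ Im (Rf R s) S := by
  have h : Im (Lf R s) S ≤ (Im (Rf R s) S).comap sg := by
    refine Im_le fun v hv y => ?_
    rw [AddSubgroup.mem_comap, sg_L]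
    exact mem_Im hv _
  exact h hx

lemma R_to_L {S : Set (Fin 10)} {x : MonoidAlgebra R G} (hx : x ∈ Im (Rf R s) S) :
    sg x ∈ Im (Lf R s) S := by
  have h : Im (Rf R s) S ≤ (Im (Lf R s) S).comap sg := by
    refine Im_le fun v hv y => ?_
    rw [AddSubgroup.mem_comap, sg_R]
    exact mem_Im hv _
  exact h hx

end

theorem th : PropLFT := by
  intro G _ s t hG R _
  have hreg := hG.reg R
  have hc : ∀ a b, adj a b → (MonoidAlgebra.of R G (s b) - 1) * (MonoidAlgebra.of R G (s a) - 1) =
      (MonoidAlgebra.of R G (s a) - 1) * (MonoidAlgebra.of R G (s b) - 1) := by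
    intro a b hab
    have := hreg.comm a b hab 1
    change (1 * (MonoidAlgebra.of R G (s b) - 1)) * (MonoidAlgebra.of R G (s a) - 1) =
      (1 * (MonoidAlgebra.of R G (s a) - 1)) * (MonoidAlgebra.of R G (s b) - 1) at this
    simpa only [one_mul] using this
  have hc2 : ∀ a b, adj a b → (MonoidAlgebra.of R G (s a) - 1) * MonoidAlgebra.of R G (s b) =
      MonoidAlgebra.of R G (s b) * (MonoidAlgebra.of R G (s a) - 1) := by
    intro a b hab
    have h1 := hc a b hab
    have e1 : (MonoidAlgebra.of R G (s a) - 1) * MonoidAlgebra.of R G (s b) =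
      (MonoidAlgebra.of R G (s a) - 1) * (MonoidAlgebra.of R G (s b) - 1) +
      (MonoidAlgebra.of R G (s a) - 1) := by rw [mul_sub, mul_one]; abel
    have e2 : MonoidAlgebra.of R G (s b) * (MonoidAlgebra.of R G (s a) - 1) =
      (MonoidAlgebra.of R G (s b) - 1) * (MonoidAlgebra.of R G (s a) - 1) +
      (MonoidAlgebra.of R G (s a) - 1) := by
        rw [sub_mul (MonoidAlgebra.of R G (s b)) 1, one_mul]; abel
    rw [e1, e2, h1]
  refine ⟨⟨?_, ?_⟩, ?_, ?_⟩
  · intro a b hab x
    show (MonoidAlgebra.of R G (s a) - 1) * ((MonoidAlgebra.of R G (s b) - 1) * x) =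
      (MonoidAlgebra.of R G (s b) - 1) * ((MonoidAlgebra.of R G (s a) - 1) * x)
    rw [← mul_assoc, ← mul_assoc, hc a b hab]
  · intro S v hv x hx
    have h1 := L_to_R s hx
    rw [sg_L] at h1
    have h2 := hreg.star S v hv _ h1
    have h3 : sg x ∈ Im (Rf R s) {w | w ∈ S ∧ adj w v} := by
      have h4 : Im (Rf R s) {w | w ∈ S ∧ adj w v} ≤ (Im (Rf R s) {w | w ∈ S ∧ adj w v}).comap
          (AddMonoidHom.mulRight (MonoidAlgebra.of R G (s v))) := by
        refine Im_le fun w hw y => ?_
        rw [AddSubgroup.mem_comap]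
        have e : AddMonoidHom.mulRight (MonoidAlgebra.of R G (s v)) (Rf R s w y) =
            Rf R s w (y * MonoidAlgebra.of R G (s v)) := by
          show (y * (MonoidAlgebra.of R G (s w) - 1)) * MonoidAlgebra.of R G (s v) =
            (y * MonoidAlgebra.of R G (s v)) * (MonoidAlgebra.of R G (s w) - 1)
          rw [mul_assoc, mul_assoc, hc2 w v hw.2]
        rw [e]
        exact mem_Im hw _
      have h5 := h4 h2
      rw [AddSubgroup.mem_comap] at h5
      have e : AddMonoidHom.mulRight (MonoidAlgebra.of R G (s v))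
          (-(sg x * MonoidAlgebra.of R G (s v)⁻¹)) = -sg x := by
        show -(sg x * MonoidAlgebra.of R G (s v)⁻¹) * MonoidAlgebra.of R G (s v) = _
        rw [neg_mul, mul_assoc, of_inv_mul, mul_one]
      rw [e] at h5
      simpa using neg_mem h5
    have h6 := R_to_L s h3
    rwa [sg_sg] at h6
  · intro k x
    show MonoidAlgebra.of R G t * ((MonoidAlgebra.of R G (s (mm k)) - 1) * x) =
      (MonoidAlgebra.of R G (s (pp k)) - 1) * (MonoidAlgebra.of R G t * x)
    rw [← mul_assoc, ← mul_assoc, mul_sub, sub_mul (MonoidAlgebra.of R G (s (pp k))) 1, ← map_mul,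
      ← map_mul, hG.conj k, mul_one, one_mul]
  · intro x hx
    have h1 : ∀ g, x.coeff g = 2 * x.coeff (t⁻¹ * g) := by
      intro g
      have e : MonoidAlgebra.of R G t * x + MonoidAlgebra.of R G t * x = x := hx
      have e2 := congrArg (fun y : MonoidAlgebra R G => y.coeff g) e
      have e3 : (MonoidAlgebra.of R G t * x).coeff g = x.coeff (t⁻¹ * g) := by
        show (single t 1 * x).coeff g = _
        rw [coeff_single_mul_apply, one_mul]
      have e4 : (MonoidAlgebra.of R G t * x + MonoidAlgebra.of R G t * x).coeff g =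
        (MonoidAlgebra.of R G t * x).coeff g + (MonoidAlgebra.of R G t * x).coeff g := rfl
      have e5 : (MonoidAlgebra.of R G t * x + MonoidAlgebra.of R G t * x).coeff g = x.coeff g := e2
      rw [e4, e3] at e5
      rw [← e5]; ring
    have h2 : ∀ (j : ℕ) g, x.coeff g = 2 ^ j * x.coeff ((t ^ j)⁻¹ * g) := by
      intro j
      induction j with
      | zero => intro g; simp
      | succ j ih =>
        intro g
        rw [ih g, h1 ((t ^ j)⁻¹ * g), pow_succ, mul_assoc, pow_succ, mul_inv_rev, mul_assoc]
    have hinj : Function.Injective (fun j : ℕ => t ^ j) := by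
      intro i j hij
      by_contra hne
      rcases lt_or_gt_of_ne hne with h | h
      · apply hG.inf (j - i) (by omega)
        have : t ^ i * t ^ (j - i) = t ^ i * 1 := by
          rw [← pow_add, mul_one]
          have : i + (j - i) = j := by omega
          rw [this]; exact hij.symm
        exact mul_left_cancel this
      · apply hG.inf (i - j) (by omega)
        have : t ^ j * t ^ (i - j) = t ^ j * 1 := by
          rw [← pow_add, mul_one]
          have : j + (i - j) = i := by omega
          rw [this]; exact hij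
        exact mul_left_cancel this
    have h3 : ∀ g, x.coeff g = 0 := by
      intro g
      have hinj2 : Function.Injective (fun j : ℕ => (t ^ j)⁻¹ * g) := by
        intro i j hij
        apply hinj
        have h4 : (t ^ i)⁻¹ * g = (t ^ j)⁻¹ * g := hij
        exact inv_injective (mul_right_cancel h4)
      obtain ⟨j, hj⟩ : ∃ j : ℕ, x.coeff ((t ^ j)⁻¹ * g) = 0 := by
        by_contra hcon
        push Not at hcon
        have hfin : (Set.range (fun j : ℕ => (t ^ j)⁻¹ * g)).Finite := by
          refine (Finset.finite_toSet x.coeff.support).subset ?_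
          rintro _ ⟨j, rfl⟩
          exact Finsupp.mem_support_iff.2 (hcon j)
        exact Set.infinite_range_of_injective hinj2 hfin
      rw [h2 j g, hj, mul_zero]
    ext g
    exact h3 g

end Pool.Agent.W85.DU
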